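import Pool.Agent.Helper77.Fusion.Final

/-!
Q1 of MP_8e3a3e_al: there is no C-NITA with `(b_3 b_8, b_3 b_8) = 4`.
-/

namespace Pool.Agent.Results.MP_8e3a3e_al.NoNormFour

open Module Pool.Agent.Helper77.Fusion

/-- There is no C-NITA as in Q1. -/
theorem result {A ι : Type*} [CommRing A] [Algebra ℂ A] (B : Basis ι ℂ A) (o : ι)
    (bar : A ≃ₐ[ℂ] A) (deg : A →ₐ[ℂ] ℂ) (v e c s : ι) : ¬ Q1 B o bar deg v e c s :=
  fun h => no_q1 h

end Pool.Agent.Results.MP_8e3a3e_al.NoNormFour
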